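import Pool.Agent.H51.SYT.Defs
import Pool.Agent.H80.Circuit

/-!
# The two definitions of circuits agree
-/

set_option autoImplicit false

namespace Pool.Agent.H51.SYT

open MvPolynomial

universe u

variable {K : Type u} {σ V : Type}

/-- translation of labels -/
def toOld : Gate K σ V → Pool.Agent.H80.Gate K σ V
  | .var x => .var x
  | .const c => .const c
  | .add a => .add (a false) (a true)
  | .mul a => .mul (a false) (a true)

/-- translation of labels -/
def toNew : Pool.Agent.H80.Gate K σ V → Gate K σ V
  | .var x => .var x
  | .const c => .const c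
  | .add a b => .add (fun j => bif j then b else a)
  | .mul a b => .mul (fun j => bif j then b else a)

theorem toOld_toNew (g : Pool.Agent.H80.Gate K σ V) : toOld (toNew g) = g := by
  cases g <;> rfl

/-- numbering of the two incoming edges -/
theorem tail_toOld (g : Gate K σ V) (j : Fin 2) (t : V) :
    (toOld g).tail j = some t ↔ Tail g (finTwoEquiv j) t := by
  cases g with
  | var x =>
    constructor
    · intro h
      exact absurd h (by simp [toOld, Pool.Agent.H80.Gate.tail])
    · rintro ⟨a, h | h, _⟩ <;> exact absurd h (by simp)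
  | const c =>
    constructor
    · intro h
      exact absurd h (by simp [toOld, Pool.Agent.H80.Gate.tail])
    · rintro ⟨a, h | h, _⟩ <;> exact absurd h (by simp)
  | add a =>
    constructor
    · intro h
      refine ⟨a, Or.inl rfl, ?_⟩
      have e0 : finTwoEquiv 0 = false := rfl
      have e1 : finTwoEquiv 1 = true := rfl
      fin_cases j
      · simpa [toOld, Pool.Agent.H80.Gate.tail, e0] using h
      · simpa [toOld, Pool.Agent.H80.Gate.tail, e1] using h
    · rintro ⟨a', h | h, h2⟩
      · injection h with h
        subst h
        subst h2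
        fin_cases j <;> rfl
      · exact absurd h (by simp)
  | mul a =>
    constructor
    · intro h
      refine ⟨a, Or.inr rfl, ?_⟩
      have e0 : finTwoEquiv 0 = false := rfl
      have e1 : finTwoEquiv 1 = true := rfl
      fin_cases j
      · simpa [toOld, Pool.Agent.H80.Gate.tail, e0] using h
      · simpa [toOld, Pool.Agent.H80.Gate.tail, e1] using h
    · rintro ⟨a', h | h, h2⟩
      · exact absurd h (by simp)
      · injection h with h
        subst h
        subst h2
        fin_cases j <;> rfl

theorem tail_toNew (g : Pool.Agent.H80.Gate K σ V) (j : Fin 2) (t : V) :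
    Tail (toNew g) (finTwoEquiv j) t ↔ g.tail j = some t := by
  rw [← tail_toOld, toOld_toNew]

theorem forall_bool_iff {p : Bool → Prop} : (∀ j : Bool, p j) ↔ ∀ j : Fin 2, p (finTwoEquiv j) :=
  ⟨fun h j => h _, fun h j => by
    have := h (finTwoEquiv.symm j)
    rwa [Equiv.apply_symm_apply] at this⟩

theorem exists_bool_iff {p : Bool → Prop} : (∃ j : Bool, p j) ↔ ∃ j : Fin 2, p (finTwoEquiv j) :=
  ⟨fun ⟨j, h⟩ => ⟨finTwoEquiv.symm j, by rwa [Equiv.apply_symm_apply]⟩, fun ⟨j, h⟩ => ⟨_, h⟩⟩

/-- The two definitions of the computed polynomials agree. -/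
theorem computed_iff [CommSemiring K] (ws : Prop) (f : MvPolynomial σ K) (s : ℕ) :
    Computed ws f s ↔ ∃ D : Pool.Agent.H80.Circuit K σ, (ws → D.WeaklySkew) ∧ D.Computes f ∧
      D.size ≤ s := by
  constructor
  · rintro ⟨V, hV, gate, rank, out, val, h1, h2, h3, h4, h5, h6, h7, h8, h9⟩
    refine ⟨{ V := V
              fin := hV
              gate := fun w => toOld (gate w)
              acyclic := ⟨rank, fun w j t h => h2 w _ t ((tail_toOld _ _ _).1 h)⟩
              out := out
              out_iff := fun t => by
                rw [h3 t]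
                refine forall_congr' fun w => ?_
                rw [forall_bool_iff]
                exact forall_congr' fun j => not_congr (tail_toOld _ _ _).symm },
      ?_, ⟨val, ?_, h8⟩, h1⟩
    · intro hws g a b hg
      obtain ⟨a', ha'⟩ : ∃ a', gate g = .mul a' := by
        change toOld (gate g) = Pool.Agent.H80.Gate.mul a b at hg
        rcases hgg : gate g with x | c | a' | a'
        · rw [hgg] at hg
          exact absurd hg (by simp [toOld])
        · rw [hgg] at hg
          exact absurd hg (by simp [toOld])
        · rw [hgg] at hg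
          exact absurd hg (by simp [toOld])
        · exact ⟨a', rfl⟩
      obtain ⟨j, hj⟩ := h9 hws g a' ha'
      have hpath : ∀ s t : V, Relation.ReflTransGen (fun s t => ∃ j : Fin 2,
          (toOld (gate t)).tail j = some s) s t ↔ Path gate s t := by
        intro s t
        unfold Path
        have hrel : (fun s t => ∃ j : Fin 2, (toOld (gate t)).tail j = some s) =
            fun s t => ∃ j, Tail (gate t) j s := by
          funext s t
          refine propext ?_
          rw [exists_bool_iff]
          exact exists_congr fun j => tail_toOld _ _ _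
        rw [hrel]
      refine ⟨finTwoEquiv.symm j, a' j, ?_, ?_⟩
      · change (toOld (gate g)).tail _ = _
        rw [tail_toOld, Equiv.apply_symm_apply]
        exact ⟨a', Or.inr ha', rfl⟩
      · intro w k s h10 h11 h12
        obtain ⟨h13, h14⟩ := hj w (finTwoEquiv k) s ((tail_toOld _ _ _).1 h10)
          ((hpath _ _).1 h11) (fun h => h12 ((hpath _ _).2 h))
        refine ⟨h13, ?_⟩
        rw [← h14, Equiv.symm_apply_apply]
    · intro w
      change val w = (toOld (gate w)).value val
      rcases hg : gate w with x | c | a | a
      · exact h4 w x hg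
      · exact h5 w c hg
      · exact h6 w a hg
      · exact h7 w a hg
  · rintro ⟨D, h1, ⟨val, h2, h3⟩, h4⟩
    obtain ⟨rank, hrank⟩ := D.acyclic
    have hmul : ∀ w a, toNew (D.gate w) = .mul a → D.gate w = .mul (a false) (a true) := by
      intro w a h
      rw [← toOld_toNew (D.gate w), h]
      rfl
    have hpath : ∀ s t : D.V, Path (fun w => toNew (D.gate w)) s t ↔ D.Path s t := by
      intro s t
      unfold Path Pool.Agent.H80.Circuit.Path
      have hrel : (fun s t => ∃ j, Tail (toNew (D.gate t)) j s) =
          fun s t => ∃ j : Fin 2, (D.gate t).tail j = some s := by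
        funext s t
        refine propext ?_
        rw [exists_bool_iff]
        exact exists_congr fun j => tail_toNew _ _ _
      rw [hrel]
    refine ⟨D.V, D.fin, fun w => toNew (D.gate w), rank, D.out, val, h4, ?_, ?_, ?_, ?_, ?_, ?_,
      h3, ?_⟩
    · intro w
      rw [forall_bool_iff]
      intro j t h
      exact hrank w j t ((tail_toNew _ _ _).1 h)
    · intro t
      rw [D.out_iff t]
      refine forall_congr' fun w => ?_
      rw [forall_bool_iff]
      exact forall_congr' fun j => not_congr (tail_toNew _ _ _).symm
    · intro w x h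
      have h' : toNew (D.gate w) = _ := h
      have : D.gate w = .var x := by
        rw [← toOld_toNew (D.gate w), h']
        rfl
      rw [h2 w, this]
      rfl
    · intro w x h
      have h' : toNew (D.gate w) = _ := h
      have : D.gate w = .const x := by
        rw [← toOld_toNew (D.gate w), h']
        rfl
      rw [h2 w, this]
      rfl
    · intro w a h
      have h' : toNew (D.gate w) = _ := h
      have : D.gate w = .add (a false) (a true) := by
        rw [← toOld_toNew (D.gate w), h']
        rfl
      rw [h2 w, this]
      rfl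
    · intro w a h
      rw [h2 w, hmul w a h]
      rfl
    · intro hws w a h
      obtain ⟨j, t, h5, h6⟩ := h1 hws w _ _ (hmul w a h)
      have h7 : a (finTwoEquiv j) = t := by
        rw [hmul w a h] at h5
        have e0 : finTwoEquiv 0 = false := rfl
        have e1 : finTwoEquiv 1 = true := rfl
        fin_cases j
        · simpa [Pool.Agent.H80.Gate.tail, e0] using h5
        · simpa [Pool.Agent.H80.Gate.tail, e1] using h5
      refine ⟨finTwoEquiv j, ?_⟩
      intro w'
      rw [forall_bool_iff]
      intro j' t' h8 h9 h10
      rw [h7] at h9 h10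
      obtain ⟨h11, h12⟩ := h6 w' j' t' ((tail_toNew _ _ _).1 h8) ((hpath _ _).1 h9)
        (fun h => h10 ((hpath _ _).2 h))
      exact ⟨h11, by rw [h12]⟩

/-- `VP = VP_ws`: the two definitions agree. -/
theorem vp_iff (K : Type u) [CommSemiring K] :
    VPEqVPws K ↔ Pool.Agent.H80.VP K = Pool.Agent.H80.VPws K := by
  have hle : ∀ (ws : Prop) (v : ℕ → ℕ) (f : (n : ℕ) → MvPolynomial (Fin (v n)) K)
      (p q : Polynomial ℕ) (n : ℕ), Computed ws (f n) (p.eval n) →
        Computed ws (f n) ((q + p).eval n) := by
    intro ws v f p q n h
    obtain ⟨V, hV, gate, rank, out, val, h1, h2⟩ := h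
    exact ⟨V, hV, gate, rank, out, val, h1.trans (by rw [Polynomial.eval_add]; omega), h2⟩
  have hin : ∀ (ws : Prop) (F : Pool.Agent.H80.PFamily K), InVP ws F.f ↔
      ∃ p : Polynomial ℕ, ∀ n, Computed ws (F.f n) (p.eval n) := by
    intro ws F
    constructor
    · rintro ⟨p, hp⟩
      exact ⟨p, fun n => (hp n).2.2⟩
    · rintro ⟨p, hp⟩
      obtain ⟨q, hq⟩ := F.v_bdd
      obtain ⟨r, hr⟩ := F.deg_bdd
      refine ⟨q + r + p, fun n => ⟨?_, ?_, hle ws F.v F.f p (q + r) n (hp n)⟩⟩
      · have := hq n
        rw [Polynomial.eval_add, Polynomial.eval_add]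
        omega
      · have := hr n
        rw [Polynomial.eval_add, Polynomial.eval_add]
        omega
  have h1 : ∀ F : Pool.Agent.H80.PFamily K, F ∈ Pool.Agent.H80.VP K ↔ InVP False F.f := by
    intro F
    rw [hin]
    refine exists_congr fun p => forall_congr' fun n => ?_
    rw [computed_iff]
    refine exists_congr fun D => ?_
    constructor
    · intro h
      exact ⟨fun h' => h'.elim, h⟩
    · intro h
      exact h.2
  have h2 : ∀ F : Pool.Agent.H80.PFamily K, F ∈ Pool.Agent.H80.VPws K ↔ InVP True F.f := by
    intro F
    rw [hin]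
    refine exists_congr fun p => forall_congr' fun n => ?_
    rw [computed_iff]
    refine exists_congr fun D => ?_
    constructor
    · intro h
      exact ⟨fun _ => h.1, h.2⟩
    · intro h
      exact ⟨h.1 trivial, h.2⟩
  constructor
  · intro h
    ext F
    rw [h1, h2]
    exact h F.v F.f
  · intro h v f
    constructor
    · intro hf
      obtain ⟨p, hp⟩ := hf
      have h3 := (h1 ⟨v, f, ⟨p, fun n => (hp n).1⟩, ⟨p, fun n => (hp n).2.1⟩⟩).2 ⟨p, hp⟩
      rw [h] at h3
      exact (h2 _).1 h3
    · intro hf
      obtain ⟨p, hp⟩ := hf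
      have h3 := (h2 ⟨v, f, ⟨p, fun n => (hp n).1⟩, ⟨p, fun n => (hp n).2.1⟩⟩).2 ⟨p, hp⟩
      rw [← h] at h3
      exact (h1 _).1 h3

end Pool.Agent.H51.SYT
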