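import Mathlib

/-!
# Circuits, tree polynomials and determinantal representations

The definitions for the theorem `Pool.Agent.Results.MP_f18ce0_lc.SymmetryThreshold.result`.
-/

set_option autoImplicit false

namespace Pool.Agent.H51.SYT

open MvPolynomial

universe u

/-- The label of a node of an arithmetic circuit over `K` in the variables `σ` with the set of nodes
`V`: a variable, a constant, or `+` or `×` together with the tails `a false` and `a true` of the two
incoming edges. -/
inductive Gate (K : Type u) (σ V : Type) : Type u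
  | var (x : σ) : Gate K σ V
  | const (c : K) : Gate K σ V
  | add (a : Bool → V) : Gate K σ V
  | mul (a : Bool → V) : Gate K σ V

/-- `t` is the tail of the incoming edge number `j` of a node with label `g`. -/
def Tail {K : Type u} {σ V : Type} (g : Gate K σ V) (j : Bool) (t : V) : Prop :=
  ∃ a, (g = .add a ∨ g = .mul a) ∧ a j = t

/-- `Path gate s t`: there is a directed path (possibly of length zero) from `s` to `t`. -/
def Path {K : Type u} {σ V : Type} (gate : V → Gate K σ V) : V → V → Prop :=
  Relation.ReflTransGen fun s t => ∃ j, Tail (gate t) j s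

/-- `f` is computed by a circuit with at most `s` nodes, which is weakly skew if `ws` is true.

The circuit is a finite acyclic graph (`rank` decreases along the edges) whose only node of
out-degree zero is `out`. It is weakly skew if each multiplication gate `w` has an incoming edge,
number `j`, with tail `a j`, such that all edges from the sub-circuit feeding it (the nodes with a
directed path to `a j`) to a node outside of this sub-circuit are the edge number `j` of `w`. -/
def Computed {K : Type u} [CommSemiring K] {σ : Type} (ws : Prop) (f : MvPolynomial σ K) (s : ℕ) :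
    Prop :=
  ∃ (V : Type) (_ : Fintype V) (gate : V → Gate K σ V) (rank : V → ℕ) (out : V)
    (val : V → MvPolynomial σ K), Fintype.card V ≤ s ∧
    (∀ w j t, Tail (gate w) j t → rank t < rank w) ∧
    (∀ t, t = out ↔ ∀ w j, ¬ Tail (gate w) j t) ∧
    (∀ w x, gate w = .var x → val w = X x) ∧
    (∀ w c, gate w = .const c → val w = C c) ∧
    (∀ w a, gate w = .add a → val w = val (a false) + val (a true)) ∧
    (∀ w a, gate w = .mul a → val w = val (a false) * val (a true)) ∧
    val out = f ∧
    (ws → ∀ w a, gate w = .mul a → ∃ j, ∀ w' j' t, Tail (gate w') j' t →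
      Path gate t (a j) → ¬ Path gate w' (a j) → w' = w ∧ j' = j)

/-- The sequence `f` of polynomials in `v 0, v 1, ...` variables is in `VP` (for `ws = False`), or
in `VP_ws` (for `ws = True`). -/
def InVP {K : Type u} [CommSemiring K] (ws : Prop) {v : ℕ → ℕ}
    (f : (n : ℕ) → MvPolynomial (Fin (v n)) K) : Prop :=
  ∃ p : Polynomial ℕ, ∀ n,
    v n ≤ p.eval n ∧ (f n).totalDegree ≤ p.eval n ∧ Computed ws (f n) (p.eval n)

/-- `VP = VP_ws` over `K`. -/
def VPEqVPws (K : Type u) [CommSemiring K] : Prop :=
  ∀ (v : ℕ → ℕ) (f : (n : ℕ) → MvPolynomial (Fin (v n)) K), InVP False f ↔ InVP True f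

/-- The part with at most `N` leaves of the coordinate `y_r` of the power series solution of
`y_i = x_i + ∑_{j,k} x_{i,j,k} y_j y_k`, where `x_i = z (inl i)` and `x_{i,j,k} = z (inr (i, j, k))`.
In the iteration, `y m i` is the part of `y_i` with exactly `m` leaves. -/
def tree {A : Type u} [CommSemiring A] {ι : Type} [Fintype ι] (z : ι ⊕ ι × ι × ι → A) (N : ℕ)
    (r : ι) : A :=
  ∑ m ∈ Finset.range (N + 1), (fun (y : ℕ → ι → A) m i => if m = 1 then z (.inl i) else
    ∑ j, ∑ k, z (.inr (i, j, k)) * ∑ p ∈ Finset.HasAntidiagonal.antidiagonal m,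
      y p.1 j * y p.2 k)^[N] (fun _ _ => 0) m r

/-- The linear substitution given by an invertible matrix `g`: the vector `x = (x_i)` is replaced by
`g x` and the bilinear map `b = (x_{i,j,k})` by `g b (g⁻¹ ⊗ g⁻¹)`. -/
noncomputable def move {K : Type u} [Field K] {ι : Type} [Fintype ι] [DecidableEq ι]
    (g : Matrix ι ι K) : ι ⊕ ι × ι × ι → MvPolynomial (ι ⊕ ι × ι × ι) K :=
  Sum.elim (fun i => ∑ a, C (g i a) * X (.inl a))
    fun t => ∑ a, ∑ b, ∑ c, C (g t.1 a * g⁻¹ b t.2.1 * g⁻¹ c t.2.2) * X (.inr (a, b, c))

/-- `g` is an invertible matrix whose row `r` is the row `r` of the identity matrix. -/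
def IsSymmetry {K : Type u} [Field K] {ι : Type} [Fintype ι] [DecidableEq ι] (r : ι)
    (g : Matrix ι ι K) : Prop :=
  IsUnit g.det ∧ ∀ a, g r a = if a = r then 1 else 0

/-- `G` is a group of symmetries whose order is invertible in `K`. (A nonempty finite set of
invertible matrices which is closed under multiplication is a group.) -/
def IsSymmetryGroup {K : Type u} [Field K] {ι : Type} [Fintype ι] [DecidableEq ι] (r : ι)
    (G : Finset (Matrix ι ι K)) : Prop :=
  (G.card : K) ≠ 0 ∧ ∀ g ∈ G, IsSymmetry r g ∧ ∀ h ∈ G, g * h ∈ G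

/-- The matrix `M` is fixed by the substitution `s`, up to the two standard equivalences
`M ↦ P M Q` and `M ↦ P Mᵀ Q` with constant invertible matrices `P` and `Q`. -/
def FixedBy {K : Type u} [Field K] {σ : Type} (s : σ → MvPolynomial σ K) {m : ℕ}
    (M : Matrix (Fin m) (Fin m) (MvPolynomial σ K)) : Prop :=
  ∃ (P Q : Matrix (Fin m) (Fin m) K) (N : Matrix (Fin m) (Fin m) (MvPolynomial σ K)),
    IsUnit P.det ∧ IsUnit Q.det ∧ (N = M ∨ N = M.transpose) ∧
      M.map (aeval s) = P.map C * N * Q.map C

/-- The tree polynomial `T` with at most `N` leaves has a determinantal representation `M` of size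
`m` which is fixed by all `g` with the property `S`. -/
def HasRep {K : Type u} [Field K] {ι : Type} [Fintype ι] [DecidableEq ι] (N : ℕ) (r : ι) (m : ℕ)
    (S : Matrix ι ι K → Prop) : Prop :=
  ∃ M : Matrix (Fin m) (Fin m) (MvPolynomial (ι ⊕ ι × ι × ι) K),
    (∀ i j, (M i j).totalDegree ≤ 1) ∧ M.det = tree X N r ∧
      ∀ g, S g → FixedBy (move g) M

/-- The tree polynomial over `K` with at most `N` leaves has a border representation `M` over `L`
(the field `K(ε)`) of size `m` which is fixed by `g`: the coefficients of the determinant of `M` are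
polynomials `a` in `K[ε]`, and the determinant becomes the tree polynomial for `ε = 0`. -/
def HasBorderRep (K : Type u) {L : Type u} [Field K] [Field L] [Algebra (Polynomial K) L]
    {ι : Type} [Fintype ι] [DecidableEq ι] (N : ℕ) (r : ι) (m : ℕ) (g : Matrix ι ι L) : Prop :=
  ∃ M : Matrix (Fin m) (Fin m) (MvPolynomial (ι ⊕ ι × ι × ι) L),
    (∀ i j, (M i j).totalDegree ≤ 1) ∧
    (∀ d, ∃ a : Polynomial K, algebraMap (Polynomial K) L a = M.det.coeff d ∧
      a.eval 0 = (tree X N r : MvPolynomial (ι ⊕ ι × ι × ι) K).coeff d) ∧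
    FixedBy (move g) M

end Pool.Agent.H51.SYT
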