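import Pool.Agent.H51.SYT.Defs
import Pool.Agent.H79.EQD.Brd

/-!
# The two definitions of tree polynomials, substitutions and representations agree
-/

set_option autoImplicit false

namespace Pool.Agent.H51.SYT

open MvPolynomial

universe u

/-- The recursion for the parts of the solution. -/
theorem iterate_eq {A : Type u} [CommSemiring A] {ι : Type} [Fintype ι] (z : ι ⊕ ι × ι × ι → A)
    (P : ℕ → ι → A) (h0 : ∀ i, P 0 i = 0) (h1 : ∀ i, P 1 i = z (.inl i))
    (h2 : ∀ m i, P (m + 2) i = ∑ j, ∑ k, z (.inr (i, j, k)) *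
      ∑ a : Fin (m + 1), P (a.1 + 1) j * P (m + 1 - a.1) k) (N : ℕ) :
    ∀ m ≤ N, ∀ i, (fun (y : ℕ → ι → A) m i => if m = 1 then z (.inl i) else
      ∑ j, ∑ k, z (.inr (i, j, k)) * ∑ p ∈ Finset.HasAntidiagonal.antidiagonal m,
        y p.1 j * y p.2 k)^[N] (fun _ _ => 0) m i = P m i := by
  induction N with
  | zero =>
    intro m hm i
    obtain rfl : m = 0 := by omega
    rw [h0]
    rfl
  | succ N ih =>
    intro m hm i
    rw [Function.iterate_succ_apply']
    obtain ⟨Y, hY⟩ : ∃ Y : ℕ → ι → A, Y = (fun (y : ℕ → ι → A) m i => if m = 1 then z (.inl i) else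
      ∑ j, ∑ k, z (.inr (i, j, k)) * ∑ p ∈ Finset.HasAntidiagonal.antidiagonal m,
        y p.1 j * y p.2 k)^[N] (fun _ _ => 0) := ⟨_, rfl⟩
    rw [← hY] at ih ⊢
    have hY0 : ∀ i, Y 0 i = 0 := fun i => by rw [ih 0 (Nat.zero_le _) i, h0]
    rcases m with _ | _ | m
    · rw [h0]
      simp [hY0]
    · rw [h1]
      simp
    · rw [h2]
      have hne : ¬ (m + 1 + 1 = 1) := by omega
      simp only [hne, if_false]
      refine Finset.sum_congr rfl fun j _ => Finset.sum_congr rfl fun k _ => ?_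
      congr 1
      rw [Finset.Nat.antidiagonal_succ, Finset.sum_cons, Finset.sum_map]
      have e1 : Y ((0, m + 1 + 1) : ℕ × ℕ).1 j = 0 := hY0 j
      rw [e1, zero_mul, zero_add, Finset.Nat.sum_antidiagonal_eq_sum_range_succ_mk,
        Finset.sum_range_succ]
      have e2 : Y (((Function.Embedding.prodMap ⟨Nat.succ, Nat.succ_injective⟩
          (Function.Embedding.refl ℕ)) (m + 1, m + 1 - (m + 1))) : ℕ × ℕ).2 k = 0 := by
        have : (((Function.Embedding.prodMap ⟨Nat.succ, Nat.succ_injective⟩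
          (Function.Embedding.refl ℕ)) (m + 1, m + 1 - (m + 1))) : ℕ × ℕ).2 = 0 := by
          simp
        rw [this, hY0]
      rw [e2, mul_zero, add_zero, Finset.sum_range]
      refine Finset.sum_congr rfl fun a _ => ?_
      have ha := a.2
      have e3 : Y (a.1 + 1) j = P (a.1 + 1) j := ih _ (by omega) j
      have e4 : Y (m + 1 - a.1) k = P (m + 1 - a.1) k := ih _ (by omega) k
      rw [← e3, ← e4]
      rfl

theorem tree_eq {K : Type u} [CommSemiring K] {ι : Type} [Fintype ι] (N : ℕ) (r : ι) :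
    tree (X : ι ⊕ ι × ι × ι → MvPolynomial (ι ⊕ ι × ι × ι) K) N r =
      Pool.Agent.H80.tsum K ι N r := by
  unfold tree Pool.Agent.H80.tsum
  refine Finset.sum_congr rfl fun m hm => ?_
  have hm' : m ≤ N := by
    have := Finset.mem_range.1 hm
    omega
  exact iterate_eq (X : ι ⊕ ι × ι × ι → MvPolynomial (ι ⊕ ι × ι × ι) K)
    (Pool.Agent.H80.tp K ι) (fun i => by rw [Pool.Agent.H80.tp])
    (fun i => by rw [Pool.Agent.H80.tp]) (fun m i => by rw [Pool.Agent.H80.tp]) N m hm' r

section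

variable {K : Type u} [Field K] {ι : Type} [Fintype ι] [DecidableEq ι]

theorem move_eq (g : Matrix ι ι K) :
    (aeval (move g) : MvPolynomial (ι ⊕ ι × ι × ι) K →ₐ[K] MvPolynomial (ι ⊕ ι × ι × ι) K) =
      Pool.EQD.symHom g := by
  apply MvPolynomial.algHom_ext
  intro x
  unfold move Pool.EQD.symHom
  rw [aeval_X, aeval_X]
  rcases x with i | ⟨i, j, k⟩
  · rfl
  · rfl

theorem fixedBy_iff (g : Matrix ι ι K) {m : ℕ}
    (M : Matrix (Fin m) (Fin m) (MvPolynomial (ι ⊕ ι × ι × ι) K)) :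
    FixedBy (move g) M ↔ Pool.EQD.FixedBySym g M := by
  unfold FixedBy Pool.EQD.FixedBySym
  rw [move_eq]
  constructor
  · rintro ⟨P, Q, N, h1, h2, rfl | rfl, h3⟩
    · exact ⟨P, Q, h1, h2, Or.inl h3⟩
    · exact ⟨P, Q, h1, h2, Or.inr h3⟩
  · rintro ⟨P, Q, h1, h2, h3 | h3⟩
    · exact ⟨P, Q, _, h1, h2, Or.inl rfl, h3⟩
    · exact ⟨P, Q, _, h1, h2, Or.inr rfl, h3⟩

theorem hasRep_iff (N : ℕ) (r : ι) (m : ℕ) (S : Matrix ι ι K → Prop) :
    HasRep N r m S ↔ ∃ M : Matrix (Fin m) (Fin m) (MvPolynomial (ι ⊕ ι × ι × ι) K),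
      Pool.EQD.DetRep M (Pool.Agent.H80.tsum K ι N r) ∧
        ∀ g, S g → Pool.EQD.FixedBySym g M := by
  unfold HasRep Pool.EQD.DetRep
  refine exists_congr fun M => ?_
  rw [tree_eq, and_assoc]
  refine and_congr_right fun _ => and_congr_right fun _ => ?_
  exact forall_congr' fun g => forall_congr' fun _ => fixedBy_iff g M

theorem hasBorderRep_iff (N : ℕ) (r : ι) (m : ℕ) (g : Matrix ι ι (RatFunc K)) :
    HasBorderRep K N r m g ↔
      ∃ M : Matrix (Fin m) (Fin m) (MvPolynomial (ι ⊕ ι × ι × ι) (RatFunc K)),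
        Pool.EQD.BDetRep M (Pool.Agent.H80.tsum K ι N r) ∧ Pool.EQD.FixedBySym g M := by
  classical
  unfold HasBorderRep Pool.EQD.BDetRep
  refine exists_congr fun M => ?_
  have hinj : Function.Injective (algebraMap (Polynomial K) (RatFunc K)) :=
    IsFractionRing.injective (Polynomial K) (RatFunc K)
  constructor
  · rintro ⟨h1, h2, h4⟩
    refine ⟨⟨h1, ?_⟩, (fixedBy_iff g M).1 h4⟩
    choose a ha1 ha2 using h2
    obtain ⟨F, hF⟩ : ∃ F : MvPolynomial (ι ⊕ ι × ι × ι) (Polynomial K),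
        F = ∑ d ∈ M.det.support, monomial d (a d) := ⟨_, rfl⟩
    have hc : ∀ d, F.coeff d = a d := by
      intro d
      rw [hF, coeff_sum]
      simp only [coeff_monomial]
      rw [Finset.sum_ite_eq' M.det.support d a]
      split_ifs with hd
      · rfl
      · have h5 : M.det.coeff d = 0 := by
          rwa [mem_support_iff, not_not] at hd
        have h6 := ha1 d
        rw [h5] at h6
        exact (hinj (h6.trans (map_zero _).symm)).symm
    refine ⟨F, ?_, ?_⟩
    · ext d
      rw [coeff_map, hc, ha1]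
    · ext d
      rw [coeff_map, hc, ← tree_eq, ← ha2]
      rfl
  · rintro ⟨⟨h1, F, h2, h3⟩, h4⟩
    refine ⟨h1, fun d => ⟨F.coeff d, ?_, ?_⟩, (fixedBy_iff g M).2 h4⟩
    · rw [h2, coeff_map]
    · rw [tree_eq, ← h3, coeff_map]
      rfl

/-- A group of symmetries as a subgroup of the group of invertible matrices. -/
theorem IsSymmetryGroup.exists_subgroup {r : ι} {G : Finset (Matrix ι ι K)}
    (hG : IsSymmetryGroup r G) : ∃ H : Subgroup (GL ι K), Nat.card H = G.card ∧
      (∀ g ∈ H, IsSymmetry r g.val) ∧ ∀ p : Matrix ι ι K → Prop,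
        (∀ g ∈ H, p g.val) ↔ ∀ g ∈ G, p g := by
  classical
  obtain ⟨h0, h1⟩ := hG
  have hinj : Function.Injective fun u : GL ι K => u.val := fun a b h => Units.ext h
  have hfin : Set.Finite {u : GL ι K | u.val ∈ G} :=
    Set.Finite.preimage (hinj.injOn) G.finite_toSet
  have hpow : ∀ u : GL ι K, u.val ∈ G → ∀ k : ℕ, (u ^ (k + 1)).val ∈ G := by
    intro u hu k
    induction k with
    | zero => simpa using hu
    | succ k ih =>
      rw [pow_succ, Units.val_mul]
      exact (h1 _ ih).2 _ hu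
  have hone : ∀ u : GL ι K, u.val ∈ G → ∃ k : ℕ, u ^ (k + 1) = 1 := by
    intro u hu
    have h2 : ¬ Function.Injective fun k : ℕ => u ^ (k + 1) := by
      intro h3
      have h4 : (Set.range fun k : ℕ => u ^ (k + 1)).Finite :=
        hfin.subset (by rintro _ ⟨k, rfl⟩; exact hpow u hu k)
      exact Set.infinite_range_of_injective h3 h4
    obtain ⟨a, b, hab, hne⟩ := Function.not_injective_iff.1 h2
    have key : ∀ a b : ℕ, a < b → u ^ (a + 1) = u ^ (b + 1) → ∃ k : ℕ, u ^ (k + 1) = 1 := by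
      intro a b hlt he
      refine ⟨b - a - 1, ?_⟩
      have h5 : b + 1 = (a + 1) + (b - a - 1 + 1) := by omega
      have he' : u ^ (a + 1) * u ^ (b - a - 1 + 1) = u ^ (a + 1) := by
        rw [← pow_add, ← h5]
        exact he.symm
      exact mul_eq_left.1 he'
    rcases lt_or_gt_of_ne hne with h | h
    · exact key a b h hab
    · exact key b a h hab.symm
  have hne : G.Nonempty := by
    rw [Finset.nonempty_iff_ne_empty]
    rintro rfl
    simp at h0
  have hunit : ∀ g ∈ G, ∃ u : GL ι K, u.val = g := by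
    intro g hg
    have h6 : IsUnit g := (Matrix.isUnit_iff_isUnit_det g).2 (h1 g hg).1.1
    obtain ⟨u, hu⟩ := h6
    exact ⟨u, hu⟩
  obtain ⟨H, hH⟩ : ∃ H : Subgroup (GL ι K), ∀ u : GL ι K, u ∈ H ↔ u.val ∈ G := by
    refine ⟨{ carrier := {u | u.val ∈ G}
              mul_mem' := ?_
              one_mem' := ?_
              inv_mem' := ?_ }, fun u => Iff.rfl⟩
    · intro a b ha hb
      exact (h1 _ ha).2 _ hb
    · obtain ⟨g, hg⟩ := hne
      obtain ⟨u, rfl⟩ := hunit g hg
      obtain ⟨k, hk⟩ := hone u hg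
      have := hpow u hg k
      rw [hk] at this
      exact this
    · intro u hu
      obtain ⟨k, hk⟩ := hone u hu
      have h7 : u⁻¹ = u ^ k := by
        rw [inv_eq_iff_mul_eq_one, ← pow_succ']
        exact hk
      show (u⁻¹).val ∈ G
      rw [h7]
      rcases k with _ | k
      · have h8 : u = 1 := by simpa using hk
        have hu' : u.val ∈ G := hu
        rw [h8] at hu'
        simpa using hu'
      · exact hpow u hu k
  refine ⟨H, ?_, ?_, ?_⟩
  · have e : H ≃ G :=
      Equiv.ofBijective (fun u => (⟨u.1.val, (hH _).1 u.2⟩ : G))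
        ⟨fun a b h => Subtype.ext (hinj (Subtype.ext_iff.1 h)), fun g => by
          obtain ⟨u, hu⟩ := hunit g.1 g.2
          exact ⟨⟨u, (hH u).2 (by rw [hu]; exact g.2)⟩, Subtype.ext hu⟩⟩
    rw [Nat.card_congr e, Nat.card_eq_fintype_card, Fintype.card_coe]
  · intro g hg
    exact (h1 _ ((hH g).1 hg)).1
  · intro p
    constructor
    · intro h g hg
      obtain ⟨u, rfl⟩ := hunit g hg
      exact h u ((hH u).2 hg)
    · intro h g hg
      exact h _ ((hH g).1 hg)

end

end Pool.Agent.H51.SYT
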