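import Pool.Agent.H51.SYT.Circ
import Pool.Agent.H51.SYT.Tre
import Pool.Agent.H79.EQD.Cut
import Pool.Agent.H79.EQD.Pre
import Pool.Agent.H79.EQD.Cnt
import Pool.Agent.H79.EQD.Trc
import Pool.Agent.H79.EQD.Dex
import Pool.Agent.H79.EQD.Grb
import Pool.Agent.H79.EQD.Dcm
import Pool.Agent.H79.EQD.Syc
import Pool.Agent.H79.EQD.Ad2
import Pool.Agent.H79.EQD.Pr2
import Pool.Agent.H79.EQD.Spr
import Pool.Agent.H79.EQD.Pri
import Pool.Agent.H79.EQD.Cyc
import Pool.Agent.H79.EQD.Bid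
import Pool.Agent.H79.EQD.Bls
import Pool.Agent.H79.EQD.Pth
import Pool.Agent.H79.EQD.Emg
import Pool.Agent.H79.EQD.Smt
import Pool.Agent.H79.EQD.Eu2
import Pool.Agent.H58.EQD.Inv
import Pool.Agent.H79.EQD.Brd
import Pool.Agent.H79.EQD.Fre

/-!
# The threshold theorem in terms of the short definitions
-/

set_option autoImplicit false

namespace Pool.Agent.H51.SYT

open MvPolynomial Filter

universe u

/-- The symmetries fix the tree polynomials. -/
theorem tree_fixed {K : Type u} [Field K] {ι : Type} [Fintype ι] [DecidableEq ι] (N : ℕ) (r : ι)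
    (g : Matrix ι ι K) (hg : IsSymmetry r g) :
    aeval (move g) (tree X N r : MvPolynomial (ι ⊕ ι × ι × ι) K) = tree X N r := by
  rw [move_eq, tree_eq]
  exact Pool.EQD.t_inv K ι r g N hg.1 hg.2

/-- A representation fixed by `g` is a border representation fixed by `g`. -/
theorem border_of_rep {K : Type u} [Field K] {ι : Type} [Fintype ι] [DecidableEq ι] (N : ℕ)
    (r : ι) (m : ℕ) (g : Matrix ι ι K) (hg : IsUnit g.det) (h : HasRep N r m (· = g)) :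
    HasBorderRep K N r m (g.map (algebraMap K (RatFunc K))) := by
  rw [hasRep_iff] at h
  rw [hasBorderRep_iff]
  obtain ⟨M, hM, hF⟩ := h
  obtain ⟨T, hT⟩ : ∃ T, T = Pool.Agent.H80.tsum K ι N r := ⟨_, rfl⟩
  rw [← hT] at hM ⊢
  refine ⟨M.map (MvPolynomial.map (algebraMap K (RatFunc K))),
    ⟨?_, MvPolynomial.map Polynomial.C T, ?_, ?_⟩, ?_⟩
  · intro i j
    refine le_trans ?_ (hM.1 i j)
    rw [Matrix.map_apply]
    exact Finset.sup_mono (support_map_subset _ _)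
  · have h1 : (M.map (MvPolynomial.map (algebraMap K (RatFunc K)))).det =
        MvPolynomial.map (algebraMap K (RatFunc K)) M.det :=
      (RingHom.map_det (MvPolynomial.map (algebraMap K (RatFunc K))) M).symm
    have h2 : (algebraMap (Polynomial K) (RatFunc K)).comp Polynomial.C =
        algebraMap K (RatFunc K) := by
      ext x
      simp
    rw [h1, hM.2, MvPolynomial.map_map, h2]
  · rw [MvPolynomial.map_map]
    have h1 : (Polynomial.evalRingHom (0 : K)).comp Polynomial.C = RingHom.id K := by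
      ext x
      simp
    rw [h1, MvPolynomial.map_id]
  · exact Pool.EQD.fixedBySym_map _ g hg M (hF g rfl)

/-- The lower bound for determinants. -/
theorem dlb' : Pool.EQD.DLB2Stmt.{u} :=
  Pool.EQD.dlb2 Pool.EQD.t_cut Pool.EQD.t_pre Pool.EQD.t_cnt Pool.EQD.t_inj
    Pool.EQD.t_dex Pool.EQD.t_grb Pool.EQD.t_dcm

/-- The threshold theorem. -/
theorem main :
    (∀ (K : Type u) [Field K] (G : (n : ℕ) → Finset (Matrix (Fin (n + 1)) (Fin (n + 1)) K)),
      (∀ n, IsSymmetryGroup 0 (G n)) → (∃ p : Polynomial ℕ, ∀ n, (G n).card ≤ p.eval n) →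
      (VPEqVPws K ↔ ∃ q : Polynomial ℕ, ∀ n, ∃ m ≤ q.eval n, HasRep (n + 1) 0 m (· ∈ G n))) ∧
    (∃ c : ℝ, 0 < c ∧ ∀ (K : Type u) [Field K] (g : ℕ → ℕ), Tendsto g atTop atTop →
      ∀ᶠ n : ℕ in atTop, ∃ π : Equiv.Perm (Fin (n + 1)), π 0 = 0 ∧ orderOf π ≤ n ^ g n ∧
        (orderOf π : K) ≠ 0 ∧ ∀ m, HasBorderRep K (n + 1) 0 m (π.permMatrix (RatFunc K)) →
          (n : ℝ) ^ (c * Real.log (min (g n) n : ℕ)) ≤ m) ∧
    (∃ c : ℕ, ∀ (K : Type u) [Field K] (n : ℕ), ∃ m ≤ (n + 2) ^ (c * Nat.log 2 (n + 2)),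
      HasRep (n + 1) 0 m (IsSymmetry (K := K) (0 : Fin (n + 1)))) := by
  refine ⟨?_, ?_, ?_⟩
  · intro K _ G hG hc
    rw [vp_iff]
    choose H h1 h2 h3 using fun n => (hG n).exists_subgroup
    have hc' : ∃ p : Polynomial ℕ, ∀ n, Nat.card (H n) ≤ p.eval n := by
      obtain ⟨p, hp⟩ := hc
      exact ⟨p, fun n => by rw [h1 n]; exact hp n⟩
    have hi : ∀ n, (Nat.card (H n) : K) ≠ 0 := fun n => by rw [h1 n]; exact (hG n).1
    rw [Pool.EQD.free_iff Pool.EQD.t_bid Pool.EQD.t_bls Pool.EQD.t_pth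
      (Pool.EQD.t_smt Pool.EQD.t_emg Pool.EQD.t_syc) Pool.EQD.t_inv K H
      (fun n g hg => (h2 n g hg).2) hc' hi]
    refine exists_congr fun q => forall_congr' fun n => exists_congr fun m => ?_
    rw [hasRep_iff]
    constructor
    · rintro ⟨M, h4, h5, h6⟩
      exact ⟨h4, M, h5, (h3 n fun g => Pool.EQD.FixedBySym g M).1 h6⟩
    · rintro ⟨h4, M, h5, h6⟩
      exact ⟨M, h4, h5, (h3 n fun g => Pool.EQD.FixedBySym g M).2 h6⟩
  · obtain ⟨c, hc, h⟩ := Pool.EQD.thr3 dlb'.{u} Pool.EQD.t_inv Pool.EQD.t_trc Pool.EQD.t_syc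
      Pool.EQD.t_ad2 Pool.EQD.t_pr2 Pool.EQD.t_spr Pool.EQD.t_pri Pool.EQD.t_cyc
    refine ⟨c, hc, ?_⟩
    intro K _ g hg
    filter_upwards [h K g hg] with n hn
    obtain ⟨π, h1, h2, h3, h4⟩ := hn
    refine ⟨π, h1, h3, h2, fun m hm => ?_⟩
    obtain ⟨M, hM, hF⟩ := (hasBorderRep_iff _ _ _ _).1 hm
    exact h4 m M hM hF
  · obtain ⟨c, h⟩ := Pool.EQD.t_eu2.{u}
    refine ⟨c, ?_⟩
    intro K _ n
    obtain ⟨m, M, h1, h2, h3⟩ := h K n
    exact ⟨m, h2, (hasRep_iff _ _ _ _).2 ⟨M, h1, fun g hg => h3 g hg.1 hg.2⟩⟩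

end Pool.Agent.H51.SYT
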